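import Pool.Agent.Helper4.CD.St2

/-!
# Project CD (MP_a41ee4_co), part 2, module UNB: from bounded spindles to all spindles
-/

set_option autoImplicit false

namespace Pool.Agent.Helper93.CD

open Pool.Agent.Helper4.CD
open Module

section

variable {K : Type} [Field K] [LinearOrder K] [IsStrictOrderedRing K] {V : Type} [AddCommGroup V] [Module K V]
  {κ : Type}

/-- the additional rows -/
private def ext (c : κ → Dual K V) (u v : V) : κ ⊕ {k : κ // c k v < c k u} → Dual K V :=
  Sum.elim c (fun k => - c k.1)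

private theorem ext_inl (c : κ → Dual K V) (u v : V) (k : κ) (x : V) : ext c u v (Sum.inl k) x = c k x := rfl

private theorem ext_inr (c : κ → Dual K V) (u v : V) (k : {k : κ // c k v < c k u}) (x : V) :
    ext c u v (Sum.inr k) x = - c k.1 x := rfl

private theorem ext_spindle {c : κ → Dual K V} {u v : V} (hS : Spindle c u v) : Spindle (ext c u v) u v := by
  refine ⟨?_, ?_, ?_⟩
  · rintro (k | k)
    · exact hS.ne k
    · rw [ext_inr, ext_inr]
      intro h
      exact hS.ne k.1 (neg_injective h)
  · intro x h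
    exact hS.vu x fun k hk => h (Sum.inl k) hk
  · intro x h
    exact hS.vv x fun k hk => h (Sum.inl k) hk

private theorem ext_bdd {c : κ → Dual K V} {u v : V} (hS : Spindle c u v) : Bdd (ext c u v) := by
  intro x h
  refine hS.vv x fun k hk => ?_
  have h1 := h (Sum.inl k)
  have h2 := h (Sum.inr ⟨k, hk⟩)
  rw [ext_inl] at h1
  rw [ext_inr] at h2
  simp only at h2
  linarith

private theorem ext_poly {c : κ → Dual K V} {u v x : V} (hx : x ∈ Poly (ext c u v) (rhs (ext c u v) u v)) :
    x ∈ Poly c (rhs c u v) := fun k => hx (Sum.inl k)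

private theorem ext_circuit {c : κ → Dual K V} {u v g : V} (hg : IsCircuit (ext c u v) g) : IsCircuit c g := by
  refine ⟨hg.1, ?_⟩
  intro x hx h k hk
  refine hg.2 x hx ?_ (Sum.inl k) hk
  rintro (j | j) hj
  · exact h j hj
  · rw [ext_inr] at hj ⊢
    rw [h j.1 (neg_eq_zero.mp hj), neg_zero]

/-- module UNB -/
theorem hUNB : StUNB := by
  intro K _ _ _ V _ _ κ _ c u v N hS hyp
  obtain ⟨m, hm, z, h, hz0, hzm, hu, hstep⟩ := hyp _ (ext c u v) (ext_spindle hS) (ext_bdd hS)
  have hinl : ∀ i : Fin m, ∃ k : κ, h i = Sum.inl k := by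
    intro i
    cases hi : h i with
    | inl k => exact ⟨k, rfl⟩
    | inr b =>
      exfalso
      have e := (hstep i).2.2 m i.2 le_rfl
      rw [hi, hzm] at e
      have e2 : rhs (ext c u v) u v (Sum.inr b) = - c b.1 u := by
        unfold rhs
        rw [ext_inr, ext_inr]
        apply min_eq_left
        have := b.2
        linarith
      rw [e2, ext_inr] at e
      exact absurd (neg_injective e) (ne_of_lt b.2)
  choose h' hh' using hinl
  have hpoly : ∀ i : ℕ, i ≤ m → z i ∈ Poly (ext c u v) (rhs (ext c u v) u v) := by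
    intro i hi
    cases i with
    | zero => rw [hz0]; exact hu
    | succ j =>
      obtain ⟨g, α, -, -, -, h4, -⟩ := (hstep ⟨j, hi⟩).1
      exact h4
  refine ⟨m, hm, z, h', hz0, hzm, ext_poly hu, ?_, ?_⟩
  · intro i hi k hk
    have hlt : c k v < c k u := by
      have h1 : c k v ≤ c k u := by
        rw [hk]; exact min_le_left _ _
      exact lt_of_le_of_ne h1 fun e => hS.ne k e.symm
    have h2 := hpoly i hi (Sum.inr ⟨k, hlt⟩)
    have e2 : rhs (ext c u v) u v (Sum.inr ⟨k, hlt⟩) = - c k u := by
      unfold rhs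
      rw [ext_inr, ext_inr]
      apply min_eq_left
      simp only
      linarith
    rw [e2, ext_inr] at h2
    simp only at h2
    linarith
  · intro i
    have hs := hstep i
    rw [hh' i] at hs
    obtain ⟨⟨g, α, hg, hα, hy, hyp1, hmax⟩, hlt, hkeep⟩ := hs
    refine ⟨⟨g, α, ext_circuit hg, hα, hy, ext_poly hyp1, ?_⟩, hlt, hkeep⟩
    intro β hβ hin
    have h1 : c (h' i) (z (i + 1)) = rhs c u v (h' i) := hkeep (i + 1) (Nat.lt_succ_self _) i.2
    have h2 : rhs c u v (h' i) < c (h' i) (z i) := hlt
    have h3 := hin (h' i)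
    rw [hy, map_add, map_smul, smul_eq_mul] at h1
    rw [map_add, map_smul, smul_eq_mul] at h3
    have h4 : α * c (h' i) g < 0 := by linarith
    have h5 : c (h' i) g < 0 := by
      by_contra hcon
      have : 0 ≤ α * c (h' i) g := mul_nonneg hα.le (not_lt.mp hcon)
      linarith
    have h6 : β * c (h' i) g < α * c (h' i) g := mul_lt_mul_of_neg_right hβ h5
    linarith

end

end Pool.Agent.Helper93.CD
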